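import Pool.Agent.MHP.StmtsS
import Pool.Agent.HMT.All

/-!
# Squad MHP (MP_09e7c7_co): statements of the rows

THEOREM. If the row of ONE connected rooted graph `A` in the connection matrix `[X·A ∈ P]` (glueing
at the roots) is a linear combination of rows of rooted graphs whose root component is not
isomorphic to `A` and has at most as many edges, then there are infinitely many pairs of mates of
the Harary polynomial of `P`.

PROOF. (1) `f₁(S,T) = ∑_{Y ⊆ T} (-1)^|Y| [S ∪ Y ∈ P]`: the relation for `P` gives the relation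
`TRel f₁` (row ST1). (2) The gadget lemma GAD for `f₁` gives two connected non-isomorphic graphs
`G, H` with the same toggled sums of `[X·G(Z) ∈ P]` for all contexts `X`. (3) The toggle formula TOG
gives the same for the numbers `h_i`, i.e. `TRel f₂`, `f₂(S,T) = (h_i(S ∪ T))_i`. (4) GAD for `f₂`
gives mates.
-/

set_option autoImplicit false

namespace Pool.Agent.MHP

open Pool.Agent.HMT

/-! ## Toggled sums -/

/-- **MOB** (uses nothing).  Moebius inversion.
PROOF.  `tog C (fun Z => tog Z F) = ∑_{Z ⊆ E(C)} ∑_{Z' ⊆ Z} (-1)^(|Z| + |Z'|) F(Z')` (the edge set of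
`fromEdgeSet Z` is `Z`, because `Z` has no loops).  Exchange the sums: for fixed `Z'` the sum of
`(-1)^|Z|` over `Z' ⊆ Z ⊆ E(C)` is `0` unless `Z' = E(C)`, when it is `(-1)^|E(C)|`. -/
def MobStmt : Prop :=
  ∀ (V : Type) [Finite V] (M : Type) [AddCommGroup M] (C : SimpleGraph V)
    (F : SimpleGraph V → M), tog C (fun Z => tog Z F) = F C

/-- **SPL** (uses nothing).  Disjoint sets of edges.
PROOF.  The subsets of `E(T₁) ∪ E(T₂)` are the unions `Y₁ ∪ Y₂`; `(-1)^|Y₁ ∪ Y₂| = (-1)^|Y₁| (-1)^|Y₂|`;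
`fromEdgeSet (Y₁ ∪ Y₂) = fromEdgeSet Y₁ ⊔ fromEdgeSet Y₂`. -/
def SplStmt : Prop :=
  ∀ (V : Type) [Finite V] (M : Type) [AddCommGroup M] (T₁ T₂ : SimpleGraph V)
    (F : SimpleGraph V → M), Disjoint T₁ T₂ →
      tog (T₁ ⊔ T₂) F = tog T₁ (fun Y₁ => tog T₂ (fun Y₂ => F (Y₁ ⊔ Y₂)))

/-- **EMB** (uses nothing).  Embeddings.
PROOF.  `E(C.map e)` is the image of `E(C)` under the injective map `Sym2.map e`;
`fromEdgeSet (Sym2.map e '' Z) = (fromEdgeSet Z).map e`. -/
def EmbStmt : Prop :=
  ∀ (V W : Type) [Finite V] [Finite W] (M : Type) [AddCommGroup M] (e : V ↪ W)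
    (C : SimpleGraph V) (F : SimpleGraph W → M),
      tog (C.map e) F = tog C (fun Z => F (Z.map e))

/-- **CNG** (uses nothing).  Only subgraphs of `C` matter; `tog` is linear; two `tog`s commute.
PROOF.  `Z ⊆ E(C)` gives `fromEdgeSet Z ≤ C`.  `Finset.sum_comm`, `Finset.smul_sum`, `smul_comm`. -/
def CngStmt : Prop :=
  ∀ (V : Type) [Finite V] (M : Type) [AddCommGroup M] (C : SimpleGraph V),
    (∀ F G : SimpleGraph V → M, (∀ Z, Z ≤ C → F Z = G Z) → tog C F = tog C G) ∧
    (∀ (F : SimpleGraph V → M) (n : ℤ), tog C (fun Z => n • F Z) = n • tog C F) ∧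
    (∀ F G : SimpleGraph V → M, tog C (fun Z => F Z + G Z) = tog C F + tog C G) ∧
    (∀ (L : Type) (s : Finset L) (F : L → SimpleGraph V → M),
      tog C (fun Z => ∑ l ∈ s, F l Z) = ∑ l ∈ s, tog C (F l)) ∧
    ∀ (W : Type) [Finite W] (D : SimpleGraph W) (F : SimpleGraph V → SimpleGraph W → M),
      tog C (fun Z => tog D (fun Y => F Z Y)) = tog D (fun Y => tog C (fun Z => F Z Y))

/-! ## Gluing -/

/-- **ASC** (uses nothing).  Associativity of gluing.
PROOF.  `e` is the obvious bijection: `inl (inl v) ↦ inl v`, `inl (inr a) ↦ inr ⟨inl a, _⟩`,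
`inr v ↦ inr ⟨inr v, _⟩`.  Check the nine cases of the adjacency; `u ≠ y` is used for the pairs
`v : V`, `c : W` (never adjacent). -/
def AscStmt : Prop :=
  ∀ (V U W : Type) (y u : U) (hu : u ≠ y) (w : W),
    ∃ e : (V ⊕ {a : U // a ≠ y}) ⊕ {v : W // v ≠ w} ≃
        V ⊕ {b : U ⊕ {v : W // v ≠ w} // b ≠ Sum.inl y},
      ∀ (X : SimpleGraph V) (x : V) (Y : SimpleGraph U) (C : SimpleGraph W) (a b),
        (glue X x (glue Y u C w) (Sum.inl y)).Adj (e a) (e b) ↔
          (glue (glue X x Y y) (Sum.inr ⟨u, hu⟩) C w).Adj a b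

/-- **ATT** (uses nothing).  The gadget with a piece glued at the hub `ρ j`.
PROOF.  `e = Equiv.sumAssoc`.  Both sides have the edges of the left part, the edges to the hubs, the
edges of `H` and the edges of `C` (with `w` replaced by the hub `ρ j`). -/
def AttStmt : Prop :=
  ∀ (J : Type) [Finite J] (T B : ℕ) (GG : Set (Equiv.Perm J)) (U W : Type) (w : W),
    ∃ e : Ver T B GG U ⊕ {v : W // v ≠ w} ≃ Ver T B GG (U ⊕ {v : W // v ≠ w}),
      e (Sum.inl (oo T B GG U)) = oo T B GG (U ⊕ {v : W // v ≠ w}) ∧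
      ∀ (ρ : J → U) (H : SimpleGraph U) (C : SimpleGraph W) (j : J) (a b),
        (Gr T B GG (fun i => (Sum.inl (ρ i) : U ⊕ {v : W // v ≠ w}))
            (glue H (ρ j) C w)).Adj (e a) (e b) ↔
          (glue (Gr T B GG ρ H) (Sum.inr (ρ j)) C w).Adj a b

/-- **SLT** (uses ASC, ATT).  The gadget in a context, seen from the hub `ρ j`.
PROOF.  `W' = W ⊕ {v : Ver T₀ B GG U // v ≠ oo}`, `S' = glue S x ⊥ oo`,
`T' = glue T x (Gr T₀ B GG ρ H) oo`, `x' = inr ⟨inr (ρ j), _⟩`.  Compose the bijections of ASC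
(with `y = oo`, `u = inr (ρ j)`) and ATT (restricted to the vertices other than the root) and use
`Inv f`; for the solid part use ASC with `Y = ⊥`, `C = ⊥` (the graph `glue ⊥ _ ⊥ _` is `⊥`). -/
def SltStmt : Prop :=
  ∀ (M : Type) (f : Fn M), Inv f →
    ∀ (J : Type) [Finite J] (T₀ B : ℕ) (GG : Set (Equiv.Perm J)) (U : Type) [Finite U]
      (ρ : J → U) (H : SimpleGraph U) (j : J) (W : Type) [Finite W] (S T : SimpleGraph W)
      (x : W),
      ∃ (W' : Type) (_ : Finite W') (S' T' : SimpleGraph W') (x' : W'),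
        ∀ (V : Type) [Finite V] (r : V) (Z : SimpleGraph V),
          ev f S T x (Gr T₀ B GG (fun i => (Sum.inl (ρ i) : U ⊕ {v : V // v ≠ r}))
              (glue H (ρ j) Z r)) (oo T₀ B GG (U ⊕ {v : V // v ≠ r})) = ev f S' T' x' Z r

/-- **EVI** (uses nothing).  Isomorphic pieces.
PROOF.  `Inv f` with the bijection `id` on `W` and the isomorphism on the rest. -/
def EviStmt : Prop :=
  ∀ (M : Type) (f : Fn M), Inv f → ∀ A B : PG, PIso A B →
    ∀ (W : Type) [Finite W] (S T : SimpleGraph W) (x : W),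
      ev f S T x A.G A.r = ev f S T x B.G B.r

/-! ## The gadget -/

/-- **SWP** (uses nothing).  The swap isomorphism.
PROOF.  The core vertex (and leaf) with label `(g, k)` is mapped to the one with label `(σ g, k)`
(the numbers of leaves are definitionally equal), `o` and its leaves are fixed, `inr u ↦ inr (η u)`.
The end of leg `i` of `g` is adjacent to `ρ (g i)`, its image to `ρ' (σ (g i)) = η (ρ (g i))`. -/
def SwpStmt : Prop :=
  ∀ (J : Type) [Finite J] (T B : ℕ) (GG GG' : Set (Equiv.Perm J)) (σ : Equiv.Perm J)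
    (U U' : Type) (ρ : J → U) (ρ' : J → U') (H : SimpleGraph U) (H' : SimpleGraph U'),
    (∀ g, σ * g ∈ GG' ↔ g ∈ GG) → ∀ η : H ≃g H', (∀ i, η (ρ i) = ρ' (σ i)) →
      ∃ φ : Gr T B GG ρ H ≃g Gr T B GG' ρ' H', φ (oo T B GG U) = oo T B GG' U'

/-- **NIS** (uses nothing).  Non-isomorphism.
PROOF.  Let `lv v` be the number of the neighbours of `v` with exactly one neighbour.
(1) A leaf of a core vertex has exactly one neighbour; core vertices have at least two neighbours
(`B ≥ 2` leaves); hubs have at least two neighbours (`o` and the end of a leg; `GG` nonempty).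
(2) `lv ⟨c, none⟩ = lf c` (all other neighbours of a core vertex are core vertices or hubs); the
numbers `lf c` are `B` for `o` and `B + 1 + ix k` for `(g, k)`; `lv` of a leaf is `0`; `lv (inr u)` is
at most `Nat.card U < B`.  So an isomorphism `φ` maps `o` to `o` and core vertices `(g, k)` to core
vertices `(g', k)` with the same `k`, in both directions.  (3) The vertices with one neighbour which
is a core vertex are the leaves (hubs have two neighbours, other `inr u` are not adjacent to core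
vertices); so `φ` restricts to an automorphism of `H`, and the hubs are the `inr u` adjacent to `o`:
`φ (ρ j) = ρ (θ j)`.  `φ` maps the component of `ρ j` in `H` to the component of `ρ (θ j)`, so
`θ = id`.  (4) `φ (g, none) = (g', none)`; along the leg `i` by induction on `a`:
`φ (g, (i, a)) = (g', (i, a))` (it is adjacent to the previous vertex, and a core vertex with label
`k` adjacent to a core vertex of `g'` belongs to `g'`).  The ends of the legs give
`ρ (g i) = ρ (g' i)`: `g = g' ∈ GG'`.  The same for the inverse. -/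
def NisStmt : Prop :=
  ∀ (J : Type) [Finite J] [Nonempty J] (T B : ℕ) (GG GG' : Set (Equiv.Perm J)) (U : Type)
    [Finite U] (ρ : J → U) (H : SimpleGraph U), Function.Injective ρ → Nat.card U + 2 ≤ B →
    GG.Nonempty → GG'.Nonempty →
    (∀ j k, PIso (PG.mk U H (ρ j)).comp (PG.mk U H (ρ k)).comp → j = k) →
    Nonempty (Gr T B GG ρ H ≃g Gr T B GG' ρ H) → GG = GG'

/-- **CON** (uses nothing).  The gadget is connected.
PROOF.  `o` is adjacent to all hubs; every `inr u` is reachable from a hub; leg ends are adjacent to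
hubs, the vertices of a leg to each other and to the centre; leaves to their core vertex. -/
def ConStmt : Prop :=
  ∀ (J : Type) [Finite J] [Nonempty J] (T B : ℕ) (GG : Set (Equiv.Perm J)) (U : Type)
    (ρ : J → U) (H : SimpleGraph U), (∀ u, ∃ i, H.Reachable (ρ i) u) →
      (Gr T B GG ρ H).Connected

/-- **CRD** (uses nothing).  Signs and orders.
PROOF.  `g ↦ (j k) g` is a bijection of `SG J 1` onto `SG J (-1)` (`Equiv.Perm.sign_swap`); it gives a
bijection of the vertices; `o` has `B` leaves. -/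
def CrdStmt : Prop :=
  ∀ (J : Type) [Fintype J] [DecidableEq J] [Nontrivial J] (T B : ℕ) (U : Type) [Finite U],
    Nat.card (Ver T B (SG J 1) U) = Nat.card (Ver T B (SG J (-1)) U) ∧
    B ≤ Nat.card (Ver T B (SG J 1) U) ∧ (SG J 1).Nonempty ∧ (SG J (-1)).Nonempty ∧
    SG J 1 ≠ SG J (-1) ∧
    ∀ j k : J, j ≠ k → ∀ g, Equiv.swap j k * g ∈ SG J (-1) ↔ g ∈ SG J 1

/-! ## Components -/

/-- **CSW** (uses nothing).  Exchange of two isomorphic components.
PROOF.  `η` is `φ` on the component of `a`, `φ⁻¹` on the component of `b`, the identity elsewhere. -/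
def CswStmt : Prop :=
  ∀ (U : Type) [Finite U] (G : SimpleGraph U) (a b : U), ¬ G.Reachable a b →
    PIso (PG.mk U G a).comp (PG.mk U G b).comp →
    ∃ η : G ≃g G, η a = b ∧ η b = a ∧
      ∀ v, ¬ G.Reachable a v → ¬ G.Reachable b v → η v = v

/-- **CMP** (uses nothing).  Components of `glue H u Z r` when `u` is isolated in `H`.
PROOF.  `glue H u Z r` is the disjoint union of `H - u` and `Z` (with `r = inl u`). -/
def CmpStmt : Prop :=
  ∀ (U V : Type) [Finite U] [Finite V] (H : SimpleGraph U) (u : U) (Z : SimpleGraph V) (r : V),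
    (∀ v, ¬ H.Adj u v) →
    PIso (PG.mk (U ⊕ {v : V // v ≠ r}) (glue H u Z r) (Sum.inl u)).comp (PG.mk V Z r).comp ∧
    (∀ w : U, w ≠ u →
      PIso (PG.mk (U ⊕ {v : V // v ≠ r}) (glue H u Z r) (Sum.inl w)).comp
        (PG.mk U H w).comp) ∧
    (∀ w w' : U, (glue H u Z r).Reachable (Sum.inl w) (Sum.inl w') ↔ H.Reachable w w') ∧
    ∀ v : {v : V // v ≠ r}, (glue H u Z r).Reachable (Sum.inl u) (Sum.inr v) ↔ Z.Reachable r v

/-- **EXC** (uses CSW, CMP).  The exchange of the hubs `j0` and `j`.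
PROOF.  By CMP the component of `inl (ρ j0)` in `glue H (ρ j0) A.G A.r` is `A.comp` and the one of
`inl (ρ j)` is the component of `ρ j` in `H`; CSW; the other hubs are in other components (CMP), so
they are fixed. -/
def ExcStmt : Prop :=
  ∀ (J : Type) [Finite J] [DecidableEq J] (U : Type) [Finite U] (ρ : J → U)
    (H : SimpleGraph U) (j0 j : J), j ≠ j0 → (∀ v, ¬ H.Adj (ρ j0) v) →
    (∀ i k, H.Reachable (ρ i) (ρ k) → i = k) →
    ∀ A : PG, PIso A.comp (PG.mk U H (ρ j)).comp →
      ∃ η : glue H (ρ j0) A.G A.r ≃g glue H (ρ j0) A.G A.r,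
        ∀ i, η (Sum.inl (ρ i)) = Sum.inl (ρ (Equiv.swap j0 j i))

/-- **MXC** (uses nothing).  The root components of subgraphs.
PROOF.  First part: `A.comp` of the subgraph `Z` has at most as many edges as `Z`, so `Z` has as many
edges as `A.G`.  Second part: the root component of `(B.V, Z)` is a subgraph of `B.comp`.  If it is
isomorphic to `A` it has at least as many edges as `B.comp`, so exactly the same edges; `B.comp` is
connected, so it also has the same vertices, and `B.comp` is isomorphic to `A`. -/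
def MxcStmt : Prop :=
  (∀ (A : PG) (Z : SimpleGraph A.V), Z ≤ A.G → PIso (PG.mk A.V Z A.r).comp A → Z = A.G) ∧
  ∀ (A B : PG) (Z : SimpleGraph B.V), Z ≤ B.G → ¬ PIso B.comp A →
    Nat.card B.comp.G.edgeSet ≤ Nat.card A.G.edgeSet → ¬ PIso (PG.mk B.V Z B.r).comp A

/-- **CIS** (uses nothing).  `PIso` is an equivalence relation; isomorphic rooted graphs have
isomorphic root components; a connected rooted graph is its root component; the root component is
connected; the root component of the root component. -/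
def CisStmt : Prop :=
  (∀ A : PG, PIso A A) ∧ (∀ A B : PG, PIso A B → PIso B A) ∧
  (∀ A B C : PG, PIso A B → PIso B C → PIso A C) ∧
  (∀ A B : PG, PIso A B → PIso A.comp B.comp) ∧
  (∀ A : PG, A.G.Connected → PIso A.comp A) ∧ (∀ A : PG, A.comp.G.Connected) ∧
  ∀ A B : PG, PIso A B → Nat.card A.G.edgeSet = Nat.card B.G.edgeSet

/-- **FAM** (uses CIS, SPK, SPS).  The graph of the pieces.
PROOF.  `J = Option` of the set of isomorphism classes of the rooted graphs `(E e).comp` which are not
isomorphic to `A`; `U = Unit ⊕ Σ q, (E q.out).comp.V`, `H` the disjoint union, `j0 = none ↦ inl ()`.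
Every component of `H` is in `Spr g` (isomorphic to an induced subgraph of `(E e).G`, SPS,
or one vertex), SPK. -/
def FamStmt : Prop :=
  ∀ (n : Type) [Finite n] (E : n → PG) (A : PG) (g : ℕ), (∀ i, Spr g (E i).G) →
    (∃ i, ¬ PIso (E i).comp A) →
    ∃ (J : Type) (_ : Fintype J) (_ : DecidableEq J) (j0 : J) (U : Type) (_ : Finite U)
      (ρ : J → U) (H : SimpleGraph U),
      (∀ v, ¬ H.Adj (ρ j0) v) ∧ (∀ i k, H.Reachable (ρ i) (ρ k) → i = k) ∧
      (∀ u, ∃ i, H.Reachable (ρ i) u) ∧
      (∀ i k, i ≠ j0 → k ≠ j0 →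
        PIso (PG.mk U H (ρ i)).comp (PG.mk U H (ρ k)).comp → i = k) ∧
      (∀ i, i ≠ j0 → ¬ PIso (PG.mk U H (ρ i)).comp A) ∧
      (∀ e, PIso (E e).comp A ∨ ∃ i, i ≠ j0 ∧ PIso (E e).comp (PG.mk U H (ρ i)).comp) ∧
      (∃ i, i ≠ j0) ∧ Spr g H

/-! ## Sparse graphs (see also StmtsS.lean) -/

/-- **SPK** (uses nothing).  Components.
PROOF. `g = 0` trivial. Colour every component. For nonempty `X` sum the inequality over the components
which meet `X`: every edge inside `X` is inside one component, and there is at least one component, so the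
sum of the numbers `|X ∩ K| - 1` is at most `|X| - 1`. (Or induction on the number of components which meet
`X`: remove one of them.) -/
def SpkStmt : Prop :=
  ∀ (g : ℕ) (V : Type) [Finite V] (G : SimpleGraph V),
    (∀ v, Spr g (G.induce {w | G.Reachable v w})) → Spr g G

/-! ## The gadget lemma -/

/-- **GAD** (uses SLT, EVI, SWP, NIS, CON, CRD, CMP, EXC, MXC, CIS, FAM, SPS, SPG, SPR, CNG).  The
gadget lemma.
PROOF.  Index set `n = {Z : SimpleGraph A.V // Z ≤ A.G} ⊕ Σ l, {Z : SimpleGraph (B l).V // Z ≤ (B l).G}`,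
`E` = the corresponding rooted graphs `(V, Z, r)`; all are in `Spr g` (SPS); `Z = ⊥` gives a root
component which is not isomorphic to `A` (no edges, CIS).  FAM gives `J, j0, U, ρ, H`; `T₀ = g`,
`B₀ = N + Nat.card U + Nat.card A.V + 2`.  For a rooted graph `C` let
`D ε C = ev f S T x (Gr T₀ B₀ (SG J ε) (inl ∘ ρ) (glue H (ρ j0) C.G C.r)) oo`.
(a) SLT for `SG J ε` and the hub `j0` and the relation `TRel` give
`a • tog A.G (fun Z => D ε (A.V, Z)) = ∑ l, b l • tog (B l).G (fun Z => D ε ((B l).V, Z))`.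
(b) If `C.comp` is isomorphic to the component of `ρ j`, `j ≠ j0`, then `D 1 C = D (-1) C`: EXC gives `η`,
SWP with `σ = swap j0 j` (CRD) a rooted isomorphism of the two gadgets, EVI.
(c) By FAM, MXC every `(V, Z, r)` except `(A.V, A.G, A.r)` has a root component as in (b).
(d) Subtract the relations (a) for `ε = 1` and `ε = -1`: by CNG only the term `Z = A.G` remains:
`a • (-1)^|E(A)| • (D 1 A - D (-1) A) = 0`, so `D 1 A = D (-1) A`.
(e) `G`, `H` = the gadgets with `C = A` for `ε = 1`, `-1`: connected by CON (every vertex of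
`glue H (ρ j0) A.G A.r` is reachable from a hub, CMP); not isomorphic by NIS: the components of the hubs
are pairwise not isomorphic (CMP, FAM, CIS); orders by CRD; `Spr g` by SPG, SPR. -/
def GadStmt : Prop :=
  ∀ (M : Type) [AddCommGroup M] (f : Fn M), Inv f →
    (∀ (n : ℤ) (m : M), n ≠ 0 → n • m = 0 → m = 0) →
    ∀ (g : ℕ) (A : PG) (L : Type) [Fintype L] (B : L → PG) (a : ℤ) (b : L → ℤ),
      TRel f A L B a b → A.G ≠ ⊥ → Spr g A.G → (∀ l, Spr g (B l).G) →
      ∀ N : ℕ, ∃ G H : PG, G.G.Connected ∧ H.G.Connected ∧ ¬ Nonempty (G.G ≃g H.G) ∧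
        Nat.card G.V = Nat.card H.V ∧ N ≤ Nat.card G.V ∧ Spr g G.G ∧ Spr g H.G ∧
        ∀ (W : Type) [Finite W] (S T : SimpleGraph W) (x : W),
          ev f S T x G.G G.r = ev f S T x H.G H.r

/-! ## The two stages -/

/-- the functional of stage 1 -/
noncomputable def f1 (P : GProp) : Fn ℤ := fun _ _ S T => tog T (fun Y => mu P (S ⊔ Y))

/-- the functional of stage 2 -/
noncomputable def f2 (P : GProp) : Fn (ℕ → ℤ) := fun _ _ S T i => (hc P (S ⊔ T) i : ℤ)

/-- **INF** (uses EMB).  The two functionals are invariant.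
PROOF.  `f2`: HCI (Pool.Agent.HMT.H84.hci).  `f1`: `T' = T.map e`, EMB, and `S' ⊔ Z.map e` is isomorphic
to `S ⊔ Z`. -/
def InfStmt : Prop := ∀ P : GProp, Inv (f1 P) ∧ Inv (f2 P)

/-- **ST1** (uses MOB, SPL, EMB, CNG).  The relation of stage 1.
PROOF.  `glue T x Z r = T.map inl ⊔ Z.map ι` (`ι r = inl x`, `ι v = inr v`), disjoint; so by SPL, EMB
`ev f₁ S T x Z r = tog T (fun Y => tog Z (fun Z' => mu P (glue (S ⊔ Y) x Z' r)))`.  Take `tog` over
`Z ≤ C`, exchange (CNG), MOB: `tog C (fun Z => ev f₁ S T x Z r) = tog T (fun Y => mu P (glue (S ⊔ Y) x C r))`.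
Use the hypothesis for the contexts `(S ⊔ Y, x)`. -/
def St1Stmt : Prop :=
  ∀ (P : GProp) (A : PG) (L : Type) [Fintype L] (M : L → PG) (a : ℤ) (b : L → ℤ),
    A.G.Connected → a ≠ 0 →
    (∀ l, ¬ PIso (M l).comp A ∧ Nat.card (M l).comp.G.edgeSet ≤ Nat.card A.G.edgeSet) →
    (∀ X : PG, a * mu P (glue X.G X.r A.G A.r) =
      ∑ l, b l * mu P (glue X.G X.r (M l).G (M l).r)) → TRel (f1 P) A L M a b

/-! ## Planting -/

/-- a new root joined to the old one -/
def plant (A : PG) : PG where
  V := Bool ⊕ {v : A.V // v ≠ A.r}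
  G := glue ⊤ true A.G A.r
  r := Sum.inl false

/-- **PLA** (uses ASC, SPG, CIS).  Planting.
PROOF.  (1), (2): `plant A` is `A` with a new pendant vertex, `Spr g` of the edge, SPG.  (3) An isomorphism
of `(plant B).comp` onto `plant A` maps the unique neighbour of the root to the unique neighbour of the root,
and removing the root gives `B.comp` and `A`.  (4) one more edge on both sides.  (5)
`X' = (X.V ⊕ {v : Bool // v ≠ false}, glue X.G X.r ⊤ false, inr ⟨true, _⟩)`, ASC with `U = Bool`, `y = false`,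
`u = true`. -/
def PlaStmt : Prop :=
  (∀ A : PG, A.G.Connected → (plant A).G.Connected ∧ (plant A).G ≠ ⊥) ∧
  (∀ (A : PG) (g : ℕ), Spr g A.G → Spr g (plant A).G) ∧
  (∀ A B : PG, A.G.Connected → PIso (plant B).comp (plant A) → PIso B.comp A) ∧
  (∀ A B : PG, Nat.card B.comp.G.edgeSet ≤ Nat.card A.G.edgeSet →
    Nat.card (plant B).comp.G.edgeSet ≤ Nat.card (plant A).G.edgeSet) ∧
  ∀ X : PG, ∃ X' : PG, (∀ v w, X'.G.Adj X'.r v → X'.G.Adj X'.r w → v = w) ∧
    (∀ g, Spr g X.G → Spr g X'.G) ∧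
    ∀ A : PG, Nonempty (glue X'.G X'.r A.G A.r ≃g glue X.G X.r (plant A).G (plant A).r)

/-! ## Main theorem -/

/-- **PSP** (uses SPS, SPG).  Restriction to sparse graphs.
PROOF.  `P' = P ∧ Spr g`.  For `G` in `Spr g` all induced subgraphs are in `Spr g`, so `hc P G = hc P' G`.
If `X` is in `Spr g`, so is `X·A` (SPG) and `mu P' = mu P`; if not, then `X·A` is not (SPS, `X` is an
induced subgraph), so `mu P' = 0`. -/
def PspStmt : Prop :=
  ∀ (P : GProp) (g : ℕ), ∃ P' : GProp,
    (∀ (V : Type) [Finite V] (G : SimpleGraph V), Spr g G → ∀ i, hc P G i = hc P' G i) ∧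
    (∀ X A : PG, Spr g X.G → Spr g A.G →
      mu P' (glue X.G X.r A.G A.r) = mu P (glue X.G X.r A.G A.r)) ∧
    ∀ X A : PG, ¬ Spr g X.G → mu P' (glue X.G X.r A.G A.r) = 0

/-- **MAI** (uses GAD, INF, ST1, TOG, PLA, PSP).  The main theorem.
PROOF.  `RowDep P g` with `A, M l`.  Replace `P` by `P'` (PSP) and `A`, `M l` by `plant A`, `plant (M l)` (PLA): the
relation then holds for `P'` and all contexts `X` (if `X` is not in `Spr g` all terms are `0`; otherwise use
`X'`).  ST1 and GAD for `f1 P'` (torsion free: `ℤ`) give `G, H`.  For all contexts `(K, x)`: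
`ev (f1 P') ⊥ .. `: with `S = K`, `T = ⊥`: `ev (f1 P') K ⊥ x C r = tog (glue ⊥ x C r) (fun Y => mu P' (glue K x ⊥ r ⊔ Y)) =
tog C (fun Z => mu P' (glue K x Z r))` (EMB).  TOG: the same for `hc P'`, so `TRel (f2 P')` holds with
`{A, B} = {G, H}` (the one with more edges is `A`; `B.comp` is isomorphic to `B`, not isomorphic to `A`).
GAD for `f2 P'` and `N`: `G', H'` in `Spr g`, not isomorphic, with the same `hc P'` (context: one
vertex, `glue ⊥ () G' r` is isomorphic to `G'`), so the same `hc P`.  FIN (Pool.Agent.HMT.Fin.fin). -/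
def MaiStmt : Prop := ∀ (P : GProp) (g : ℕ), RowDep P g → InfMates P

end Pool.Agent.MHP
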