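import Pool.Agent.MHP.Defs

/-!
# Squad MHP (MP_09e7c7_co): the toggle formula
-/

set_option autoImplicit false

open scoped Classical

namespace Pool.Agent.MHP

open Pool.Agent.HMT

/-! ## The vertices of a glued graph -/

/-- the vertices of `C` in `glue X x C r` (the root `r` is `x`) -/
noncomputable def emb {V W : Type} (r : V) (x : W) (v : V) : W ⊕ {v : V // v ≠ r} :=
  if h : v = r then .inl x else .inr ⟨v, h⟩

/-- the retraction of the vertices of `glue X x C r` onto those of `X` -/
def ret {V W : Type} (r : V) (x : W) : W ⊕ {v : V // v ≠ r} → W := Sum.elim id (fun _ => x)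

theorem emb_root {V W : Type} (r : V) (x : W) : emb r x r = .inl x := by
  simp [emb]

theorem emb_of_ne {V W : Type} (r : V) (x : W) (v : V) (h : v ≠ r) :
    emb r x v = .inr ⟨v, h⟩ := by
  simp [emb, h]

theorem ret_emb {V W : Type} (r : V) (x : W) (v : V) : ret r x (emb r x v) = x := by
  by_cases h : v = r
  · subst h; rw [emb_root]; rfl
  · rw [emb_of_ne r x v h]; rfl

theorem emb_injective {V W : Type} (r : V) (x : W) : Function.Injective (emb r x) := by
  intro a b h
  by_cases ha : a = r <;> by_cases hb : b = r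
  · rw [ha, hb]
  · rw [ha, emb_root, emb_of_ne r x b hb] at h
    exact absurd h (by simp)
  · rw [hb, emb_root, emb_of_ne r x a ha] at h
    exact absurd h (by simp)
  · rw [emb_of_ne r x a ha, emb_of_ne r x b hb] at h
    simpa using h

theorem glue_adj_inl {V W : Type} (X : SimpleGraph W) (x : W) (C : SimpleGraph V) (r : V)
    (a b : W) : (glue X x C r).Adj (.inl a) (.inl b) ↔ X.Adj a b := Iff.rfl

theorem glue_adj_emb {V W : Type} (X : SimpleGraph W) (x : W) (C : SimpleGraph V) (r : V)
    (a b : V) : (glue X x C r).Adj (emb r x a) (emb r x b) ↔ C.Adj a b := by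
  by_cases ha : a = r <;> by_cases hb : b = r
  · subst ha; subst hb
    rw [emb_root]
    exact ⟨fun h => absurd h X.irrefl, fun h => absurd h C.irrefl⟩
  · subst ha
    rw [emb_root, emb_of_ne a x b hb]
    exact ⟨fun h => h.2, fun h => ⟨rfl, h⟩⟩
  · subst hb
    rw [emb_root, emb_of_ne b x a ha]
    exact ⟨fun h => h.2.symm, fun h => ⟨rfl, h.symm⟩⟩
  · rw [emb_of_ne r x a ha, emb_of_ne r x b hb]
    exact Iff.rfl

theorem glue_adj_iff {V W : Type} (X : SimpleGraph W) (x : W) (C : SimpleGraph V) (r : V)
    (p q : W ⊕ {v : V // v ≠ r}) :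
    (glue X x C r).Adj p q ↔ (∃ a b, p = .inl a ∧ q = .inl b ∧ X.Adj a b) ∨
      (∃ a b, p = emb r x a ∧ q = emb r x b ∧ C.Adj a b) := by
  constructor
  · intro h
    rcases p with a | a <;> rcases q with b | b
    · exact Or.inl ⟨a, b, rfl, rfl, h⟩
    · refine Or.inr ⟨r, b.1, ?_, ?_, h.2⟩
      · rw [emb_root, h.1]
      · rw [emb_of_ne r x b.1 b.2]
    · refine Or.inr ⟨a.1, r, ?_, ?_, h.2.symm⟩
      · rw [emb_of_ne r x a.1 a.2]
      · rw [emb_root, h.1]
    · refine Or.inr ⟨a.1, b.1, ?_, ?_, h⟩
      · rw [emb_of_ne r x a.1 a.2]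
      · rw [emb_of_ne r x b.1 b.2]
  · rintro (⟨a, b, rfl, rfl, h⟩ | ⟨a, b, rfl, rfl, h⟩)
    · exact h
    · exact (glue_adj_emb X x C r a b).2 h

theorem inl_or_emb {V W : Type} (r : V) (x : W) (p : W ⊕ {v : V // v ≠ r}) :
    (∃ a, p = .inl a) ∨ ∃ a, a ≠ r ∧ p = emb r x a := by
  rcases p with a | a
  · exact Or.inl ⟨a, rfl⟩
  · exact Or.inr ⟨a.1, a.2, by rw [emb_of_ne r x a.1 a.2]⟩

theorem inl_eq_emb {V W : Type} (r : V) (x : W) (a : W) (b : V) :
    (Sum.inl a : W ⊕ {v : V // v ≠ r}) = emb r x b ↔ a = x ∧ b = r := by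
  by_cases hb : b = r
  · subst hb; rw [emb_root]; simp
  · rw [emb_of_ne r x b hb]; simp [hb]

/-! ## Rows -/

/-- EXT: the partitions of the vertices of `glue X x C r` in which all edges of `C` are inside blocks.
PROOF. (1) `C` is connected, so by induction on walks `π.r (emb a) (emb b)` for all `a b : V`; with
`b = r`: `π.r (emb a) (inl x)` for all `a`. So `p` and `inl (ret p)` are in the same block for every
`p` (`p = inl _`: equal; `p = inr ⟨v, h⟩ = emb v`), and `π.r p q ↔ π.r (inl (ret p)) (inl (ret q))`.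
(2) `Quotient (π₀.comap ret) ≃ Quotient π₀`: `ret` is surjective (`ret (inl w) = w`); use
`Quotient.map'`/`Quotient.congr` or `Setoid.quotientKerEquiv...`; by hand: the map induced by `ret` is
injective by definition of `comap` and surjective. -/
def ExtStmt : Prop :=
  (∀ (V W : Type) (C : SimpleGraph V) (r : V) (x : W) (π : Setoid (W ⊕ {v : V // v ≠ r})),
    C.Connected → (∀ a b, C.Adj a b → π.r (emb r x a) (emb r x b)) →
      π = (π.comap Sum.inl).comap (ret r x)) ∧
  (∀ (V W : Type) (r : V) (x : W) (π₀ : Setoid W),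
    Nat.card (Quotient (π₀.comap (ret r x))) = Nat.card (Quotient π₀))

/-- BLK: the blocks of the partition `π₀.comap ret`.
PROOF. Write `G = glue X x Z r`. The block of `p` in `π₀.comap ret` is `{q | π₀.r (ret q) (ret p)}`.
(a) If `π₀.r v x` fails, the block of `inl v` is contained in `range inl` (every `inr _` is mapped to
`x` by `ret`) and `w ↦ inl w` is an isomorphism of `X.induce {w | π₀.r w v}` onto
`G.induce (block)`; use `P.iso`. (b) All other vertices `p` have `π₀.r (ret p) x`, so they are in the
block of `inl x`, and `G.induce {q | π₀.r (ret q) x}` is isomorphic to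
`glue (X.induce {w | π₀.r w x}) ⟨x, _⟩ Z r`: `⟨inl w, h⟩ ↦ inl ⟨w, h⟩`, `⟨inr v, _⟩ ↦ inr v`. (The two
blocks `{w | (π₀.comap ret).r w p}` for two members `p` of the same class are equal sets: rewrite.) -/
def BlkStmt : Prop :=
  ∀ (P : GProp) (V W : Type) [Finite V] [Finite W] (X : SimpleGraph W) (x : W)
    (Z : SimpleGraph V) (r : V) (π₀ : Setoid W),
    (∀ p, P.mem ((glue X x Z r).induce {q | (π₀.comap (ret r x)).r q p})) ↔
      (∀ v, ¬ π₀.r v x → P.mem (X.induce {w | π₀.r w v})) ∧
        P.mem (glue (X.induce {w | π₀.r w x}) ⟨x, π₀.refl' x⟩ Z r)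

/-- CUT: cancellation.
PROOF. Let `e = s(a, b)` and `Z' = Z` with `e` toggled (`insert`/`erase`). As `emb a` and `emb b` are
in different blocks, for every block `B` the graphs `(glue X x Z r).induce B` and
`(glue X x Z' r).induce B` are EQUAL (`glue_adj_iff`; `emb` is injective), so the two values of the
indicator agree. Split the powerset of `E(C) = insert e (E(C).erase e)` with
`Finset.sum_powerset_insert`, or `Finset.sum_involution`. -/
def CutStmt : Prop :=
  ∀ (P : GProp) (V W : Type) [Finite V] [Finite W] (X : SimpleGraph W) (x : W)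
    (C : SimpleGraph V) (r : V) (π : Setoid (W ⊕ {v : V // v ≠ r})) (a b : V), C.Adj a b →
    ¬ π.r (emb r x a) (emb r x b) →
    tog C (fun Z => if ∀ p, P.mem ((glue X x Z r).induce {q | π.r q p}) then (1 : ℤ) else 0) = 0

/-- TGA: the toggle formula: `∑_Z (-1)^|Z| h_i (X·(V(C), Z))` is the sum over the partitions `π` of
the vertices of `X` with `i` blocks, whose blocks not containing `x` induce graphs in `P`, of the
toggled sum for the block of `x`.
(`s` = the set of these partitions.)
PROOF. `hc P G i = ∑_π [i classes] [all blocks in P]` as an integer (`Nat.card` of a subtype of the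
finite type `Setoid _` = card of a filter of `Finset.univ`; `Finite (Setoid _)`: `Setoid.r` is
injective, `Finite.of_injective`). Interchange `tog` (a finite sum) and the
sum over `π`: by CUT only the `π` with all edges of `C` inside blocks contribute; by EXT they are the
`π₀.comap ret` (the map `π₀ ↦ π₀.comap ret` is injective with inverse `comap inl`, since
`ret ∘ inl = id`), with the same number of classes; by BLK the condition splits. Pull the condition
for the blocks without `x` out of `tog`. -/
def TgaStmt : Prop :=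
  ∀ (P : GProp) (V W : Type) [Finite V] [Finite W] (X : SimpleGraph W) (x : W)
    (C : SimpleGraph V) (r : V) (i : ℕ) (s : Finset (Setoid W)), C.Connected →
    (∀ π : Setoid W, π ∈ s ↔ (Nat.card (Quotient π) = i ∧
      ∀ v, ¬ π.r v x → P.mem (X.induce {w | π.r w v}))) →
    tog C (fun Z => (hc P (glue X x Z r) i : ℤ)) =
      ∑ π ∈ s, tog C (fun Z => mu P (glue (X.induce {w | π.r w x}) ⟨x, π.refl' x⟩ Z r))

/-- TOG: if two connected rooted graphs have the same toggled rows then they have the same toggled
sums for all `h_i`.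
PROOF. TGA for both with the same finite set `s` (the finite set of all `π` with the two conditions;
`Finite (Setoid X.V)`); the inner sums agree by the hypothesis for the contexts
`⟨_, X.G.induce {w | π.r w X.r}, ⟨X.r, _⟩⟩ : PG`. -/
def TogStmt : Prop :=
  ∀ (P : GProp) (A B : PG), A.G.Connected → B.G.Connected →
    (∀ X : PG, tog A.G (fun Z => mu P (glue X.G X.r Z A.r)) =
      tog B.G (fun Z => mu P (glue X.G X.r Z B.r))) →
    ∀ (X : PG) (i : ℕ), tog A.G (fun Z => (hc P (glue X.G X.r Z A.r) i : ℤ)) =
      tog B.G (fun Z => (hc P (glue X.G X.r Z B.r) i : ℤ))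

end Pool.Agent.MHP
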