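import Pool.Agent.MHP.Base

/-!
# Mates for Harary polynomials (MP_09e7c7_co), squad MHP: dependent rows, final form
-/

set_option autoImplicit false

namespace Pool.Agent.MHP

open Pool.Agent.HMT

/-- The rooted graph `M` does not contain the rooted graph `A`: no injective homomorphism of `A.G`
into `M.G` maps the root of `A` to the root of `M`. -/
def NoCopy (A M : PG) : Prop := ∀ φ : SimpleGraph.Copy A.G M.G, φ A.r ≠ M.r

/-- There are a connected rooted graph `A` and finitely many rooted graphs `M l` which do not
contain `A` (all in the class `Spr g`) such that for every `n ≥ n0` the row `X ↦ [X·A ∈ P]` of `A` is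
a linear combination of the rows of the `M l` on the rooted graphs `X` of order `n` in the class
`Spr g` whose root has at most one neighbour. -/
def DepRows (P : GProp) (g n0 : ℕ) : Prop :=
  ∃ (A : PG) (L : Type) (_ : Fintype L) (M : L → PG),
    A.G.Connected ∧ Spr g A.G ∧ (∀ l, Spr g (M l).G ∧ NoCopy A (M l)) ∧
    ∀ n, n0 ≤ n → ∃ (a : ℤ) (b : L → ℤ), a ≠ 0 ∧
      ∀ X : PG, Spr g X.G → Nat.card X.V = n →
        (∀ v w, X.G.Adj X.r v → X.G.Adj X.r w → v = w) →
        a * mu P (glue X.G X.r A.G A.r) = ∑ l, b l * mu P (glue X.G X.r (M l).G (M l).r)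

end Pool.Agent.MHP
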