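import Pool.Agent.MHP.StmtsT

/-!
# Squad MHP (MP_09e7c7_co): the class `Spr g` of sparse graphs
-/

set_option autoImplicit false

open scoped Classical

namespace Pool.Agent.MHP

open Pool.Agent.HMT

/-- SPS: subgraphs, induced subgraphs, isomorphic graphs.
PROOF. Colourings restrict / transport. Subgraphs on the same vertices: the edge set of `D.induce X`
is contained in that of `G.induce X` (`Nat.card_le_card_of_injective`, `Set.ncard_le_ncard`, or
`Nat.card_mono`). Induced subgraphs: for `X : Set B` the graph `(G.induce B).induce X` is isomorphic to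
`G.induce (Subtype.val '' X)`. Isomorphisms: `G.induce (e ⁻¹' X) ≃g H.induce X`
(`SimpleGraph.Iso.mapEdgeSet` for the numbers of edges). -/
def SpsStmt : Prop :=
  (∀ (g : ℕ) (V : Type) [Finite V] (G D : SimpleGraph V), D ≤ G → Spr g G → Spr g D) ∧
  (∀ (g : ℕ) (V : Type) [Finite V] (G : SimpleGraph V) (B : Set V), Spr g G →
    Spr g (G.induce B)) ∧
  (∀ (g : ℕ) (V W : Type) [Finite V] [Finite W] (G : SimpleGraph V) (H : SimpleGraph W),
    Nonempty (G ≃g H) → Spr g G → Spr g H)

/-- SPG: gluing.
PROOF. `g = 0` is trivial. Bipartite: colourings `c` of `X` and `d` of `C` with values in `Bool` or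
`Fin 2`; exchange the two colours of `d` if `d r ≠ c x`; then `Sum.elim c (d ∘ Subtype.val)` is a
colouring. Sparse: let `Y` be a nonempty set of vertices of `glue X x C r`, `A = {w | inl w ∈ Y}`,
`B = {v : V | emb v ∈ Y}` (it contains `r` iff `x ∈ A`). By `glue_adj_iff` the number of edges inside
`Y` is `e(X[A]) + e(C[B])` (an edge cannot be of both kinds). If `x ∈ A`: `|Y| = |A| + |B| - 1`, both
nonempty: `g e ≤ (g + 1) ((|A| - 1) + (|B| - 1)) = (g + 1) (|Y| - 1)`. If `x ∉ A`: `|Y| = |A| + |B|`,
and one of the sets may be empty (then it has no edges); the bound follows. -/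
def SpgStmt : Prop :=
  ∀ (g : ℕ) (V W : Type) [Finite V] [Finite W] (X : SimpleGraph W) (x : W) (C : SimpleGraph V)
    (r : V), Spr g X → Spr g C → Spr g (glue X x C r)

/-- SPA: the gadget is bipartite.
PROOF. Let `c : U → Bool` be a colouring of `H`. As every component of `H` contains at most one hub
`ρ j`, we may exchange the colours in the components such that all hubs have the colour `false`:
`c' u = xor (c u) (c (ρ j))` if `H.Reachable (ρ j) u` for some (then unique) `j`, and `c' u = c u`
otherwise; adjacent vertices are in the same component. Colours of the other vertices: `o`: `true`;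
the leg vertex `(i, a)`: `true` iff `T - a` is even; centre of a spider: `true` iff `T` is odd (so that it
differs from the colour of `(i, 0)`); a leaf: different from its core vertex. Check the five kinds of
edges in `Rl`. -/
def SpaStmt : Prop :=
  ∀ (J : Type) [Finite J] (T B : ℕ) (GG : Set (Equiv.Perm J)) (U : Type) [Finite U] (ρ : J → U)
    (H : SimpleGraph U), (∀ j k, H.Reachable (ρ j) (ρ k) → j = k) → H.Colorable 2 →
    (Gr T B GG ρ H).Colorable 2

/-- SPC: edges in a set with `h` vertices in different components.
PROOF. For `j ∈ S` let `X_j = {u ∈ X | H.Reachable (ρ j) u}` (it contains `ρ j`), pairwise disjoint, `X₀` =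
the rest of `X`. Every edge inside `X` is inside one of these sets (its ends are in the same component).
So `g e(H[X]) ≤ ∑_j (g + 1) (|X_j| - 1) + (g + 1) |X₀| = (g + 1) (|X| - |S|)`. (Induction on the finite set
`S` may be simpler: `S = insert j S'`; apply the induction hypothesis to `X \ X_j` and the hypothesis to
`X_j`; `e(H[X]) = e(H[X \ X_j]) + e(H[X_j])`.) -/
def SpcStmt : Prop :=
  ∀ (J : Type) [Finite J] (g : ℕ) (U : Type) [Finite U] (ρ : J → U) (H : SimpleGraph U),
    (∀ j k, H.Reachable (ρ j) (ρ k) → j = k) →
    (∀ X : Set U, X.Nonempty →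
      g * Nat.card (H.induce X).edgeSet ≤ (g + 1) * (Nat.card X - 1)) →
    ∀ (X : Set U) (S : Finset J), (∀ j ∈ S, ρ j ∈ X) →
      g * Nat.card (H.induce X).edgeSet ≤ (g + 1) * (Nat.card X - S.card)

/-- SPB: the gadget is sparse.
PROOF. Let `Y` be a nonempty set of vertices, `X = {u | inr u ∈ Y}`, `Y_L` = the other elements of `Y`,
`h` = number of the hubs in `X` (`ρ` is injective by the first hypothesis). Count the edges of `Gr`
inside `Y`:
(1) edges `pc`: at most `(g + 1) (|X| - h) / g`, and at most `(g + 1) (|X| - 1) / g` if `X` is nonempty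
(SPC with `S` = all `j` with `ρ j ∈ X`, resp. the hypothesis).
(2) edges `leaf`, `spi`, `leg`: assign the edge core - leaf to the leaf, centre - `(i, 0)` and
`(i, a) - (i, a + 1)` to the second vertex. The edge `leg` from `(g, (i, T))`: if the whole leg
`(g, (i, a))`, `a ≤ T`, and the centre of `g` are in `Y` call it full; otherwise assign it to the vertex
`(g, (i, a))` of `Y` with `a` minimal such that all `(g, (i, a'))`, `a ≤ a' ≤ T`, are in `Y` (its
predecessor is not in `Y`, so no other edge is assigned to it). So the number of these edges is at most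
`|Y_L| - [o ∈ Y] + n`, `n` = number of full legs, and `n (T + 1) ≤ |Y_L| - [o ∈ Y]`, so `g` times this
number is at most `(g + 1) (|Y_L| - [o ∈ Y])` (as `g ≤ T + 1`).
(3) edges `oh`: `h` if `o ∈ Y`, none otherwise.
If `o ∈ Y`: `g e(Y) ≤ (g + 1) (|Y_L| - 1) + g h + (g + 1) (|X| - h) ≤ (g + 1) (|Y| - 1)`. If `o ∉ Y` and `X` is
nonempty: `g e(Y) ≤ (g + 1) |Y_L| + (g + 1) (|X| - 1)`. If `X` is empty: there are only edges `leaf` and
`spi` inside `Y`, at most one is assigned to every vertex of `Y`, and none to a vertex of minimal depth
(`o` and centres: 0, `(i, a)`: `a + 1`, leaf: one more than its core vertex), so `e(Y) ≤ |Y| - 1`.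
(Formally injections of the edges into `Y ⊕ full legs` etc.; compare Pool/Agent/Helper49_HMT/THE.lean,
where the same count is done for a similar graph.) -/
def SpbStmt : Prop :=
  ∀ (J : Type) [Finite J] (T B g : ℕ) (GG : Set (Equiv.Perm J)) (U : Type) [Finite U] (ρ : J → U)
    (H : SimpleGraph U), g ≤ T + 1 → (∀ j k, H.Reachable (ρ j) (ρ k) → j = k) →
    (∀ X : Set U, X.Nonempty →
      g * Nat.card (H.induce X).edgeSet ≤ (g + 1) * (Nat.card X - 1)) →
    ∀ Y : Set (Ver T B GG U), Y.Nonempty →
      g * Nat.card ((Gr T B GG ρ H).induce Y).edgeSet ≤ (g + 1) * (Nat.card Y - 1)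

/-- SPR: the gadget is in `Spr g`.
PROOF. SPA and SPB. -/
def SprStmt : Prop :=
  ∀ (J : Type) [Finite J] (T B g : ℕ) (GG : Set (Equiv.Perm J)) (U : Type) [Finite U] (ρ : J → U)
    (H : SimpleGraph U), g ≤ T + 1 → (∀ j k, H.Reachable (ρ j) (ρ k) → j = k) → Spr g H →
    Spr g (Gr T B GG ρ H)

/-! ## Insensitive properties -/

/-- THN: sparse graphs are thin.
PROOF. A cycle of length `ℓ` has `ℓ` different vertices `X` and `ℓ` different edges inside `X`, so
`(g + 1) ℓ ≤ (g + 2) (ℓ - 1)`, `ℓ ≥ g + 2`. (In Mathlib: `IsCycle.support_tail_nodup`, length of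
`support.tail` = length; `IsTrail.edges_nodup`, the edges of the walk inject into the edge set of
`G.induce X`, `X = {v | v ∈ c.support}`.) The number of edges: `X = univ` (`G.induce univ ≃g G`):
`(g + 1) |E| ≤ (g + 2) (|V| - 1)`, and `g (g + 2) ≤ (g + 1)^2`; if `V` is empty there are no edges. -/
def ThnStmt : Prop :=
  ∀ (g : ℕ) (V : Type) [Finite V] (G : SimpleGraph V), Spr (g + 1) G → Thin g G

/-- the star with the centre `none` -/
def star (n : ℕ) : SimpleGraph (Option (Fin n)) where
  Adj v w := v ≠ w ∧ (v = none ∨ w = none)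
  symm := ⟨fun _ _ h => ⟨h.1.symm, h.2.symm⟩⟩
  loopless := ⟨fun _ h => h.1 rfl⟩

/-- STF: stars.
PROOF. Connected: every vertex is adjacent or equal to `none`. `Spr`: bipartite (`none` has another
colour than the rest); a nonempty set `X` induces at most `|X| - 1` edges (if `none ∉ X`: no edges; if
`none ∈ X`: `s(none, v) ↦ v` is injective into `X \ {none}`). Number of edges: `some i ↦ s(none, some i)`
is a bijection. -/
def StfStmt : Prop :=
  ∀ n : ℕ, (star n).Connected ∧ (∀ g, Spr g (star n)) ∧ Nat.card (star n).edgeSet = n

/-- COR: the 2-core of a graph with a pendant star, glued at the centre or at a leaf.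
PROOF. Let `S` be a set of vertices of `glue X x (star n) r` in which every vertex has two neighbours.
(a) `r = none`: a vertex `inr (some i)` has only the neighbour `inl x`. So `S ⊆ range inl`. (b)
`r = some i₀`: a vertex `inr (some i)`, `i ≠ i₀`, has only the neighbour `inr none`, so it is not in `S`;
then `inr none` has at most the neighbour `inl x` in `S`, so it is not in `S`. So in both cases
`core (glue X x (star n) r) = Sum.inl '' core X`, and `inl` induces the isomorphism of the induced
subgraphs. -/
def CorStmt : Prop :=
  ∀ (W : Type) [Finite W] (X : SimpleGraph W) (x : W) (n : ℕ) (r : Option (Fin n)),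
    Nonempty ((glue X x (star n) r).induce (core (glue X x (star n) r)) ≃g
      X.induce (core X))

/-- EDS: number of edges of a graph with a pendant subgraph of a star.
PROOF. `glue_adj_iff`: the edges are the images of those of `X` under `Sym2.map inl` and of those of
`C` under `Sym2.map (emb r x)`, two injective maps with disjoint images. -/
def EdsStmt : Prop :=
  ∀ (V W : Type) [Finite V] [Finite W] (X : SimpleGraph W) (x : W) (C : SimpleGraph V) (r : V),
    Nat.card (glue X x C r).edgeSet = Nat.card X.edgeSet + Nat.card C.edgeSet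

/-- INS: insensitive properties.
PROOF. Let `n = s + 2`, `A = ⟨Option (Fin n), star n, none⟩`, `M = ⟨Option (Fin n), star n, some 0⟩`,
`L = Unit`, `a = b = 1`, in `RowDep P (g + 1)`. By STF both are connected, in `Spr (g + 1)`, with `n`
edges; `M.comp` is isomorphic to `M` (connected), and not to `A`: the root of `A` has `n ≥ 2` neighbours,
the root of `M` only one. For a context `X` in `Spr (g + 1)` both glued graphs are in `Spr (g + 1)` (SPG), so
they are `Thin g` (THN), they have the same order `> s` (the types `{v // v ≠ none}` and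
`{v // v ≠ some 0}` both have `n` elements), the same number of edges (EDS), and isomorphic cores (COR
twice). So `mu P` agrees by `Insens`. -/
def InsStmt : Prop := ∀ (P : GProp) (g s : ℕ), Insens P g s → RowDep P (g + 1)

end Pool.Agent.MHP
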