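import Pool.Agent.HMT.All
import Pool.Agent.Helper72_MHP.MOB
import Pool.Agent.Helper6_MHP.SPL
import Pool.Agent.Helper95_MHP.EMB
import Pool.Agent.Helper92_MHP.CNG
import Pool.Agent.Helper47_MHP.ASC
import Pool.Agent.Helper8_MHP.ATT
import Pool.Agent.Helper11_MHP.SLT
import Pool.Agent.Helper35_MHP.EVI
import Pool.Agent.Helper28_MHP.SWP
import Pool.Agent.Helper23_MHP.NIS
import Pool.Agent.Helper14_MHP.HCon
import Pool.Agent.Helper86_MHP.CRD
import Pool.Agent.Helper39_MHP.CSW
import Pool.Agent.Helper29_MHP.CMP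
import Pool.Agent.Helper60_MHP.EXC
import Pool.Agent.Helper69_MHP.MXC
import Pool.Agent.Helper45_MHP.CIS
import Pool.Agent.Helper7_MHP.FAM
import Pool.Agent.Helper51_MHP.SPK
import Pool.Agent.Helper94_MHP.GAD
import Pool.Agent.Helper46_MHP.INF
import Pool.Agent.Helper98_MHP.ST1
import Pool.Agent.Helper36_MHP.PLA
import Pool.Agent.Helper88_MHP.PSP
import Pool.Agent.Helper25_MHP.MAI
import Pool.Agent.Helper27_MHP.EXT
import Pool.Agent.Helper77_MHP.BLK
import Pool.Agent.Helper19_MHP.CUT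
import Pool.Agent.Helper52_MHP.TGA
import Pool.Agent.Helper21_MHP.TOG
import Pool.Agent.Helper2_MHP.CMA
import Pool.Agent.Helper75_MHP.CMC
import Pool.Agent.Helper51_MHP.CMB
import Pool.Agent.Helper59_MHP.CMV
import Pool.Agent.Helper69_MHP.CMS
import Pool.Agent.Helper92_MHP.CME
import Pool.Agent.Helper50_MHP.CMX
import Pool.Agent.Helper53_MHP.FIX
import Pool.Agent.Helper65_MHP.MSO
import Pool.Agent.Helper66_MHP.SPS
import Pool.Agent.Helper62_MHP.SPG
import Pool.Agent.Helper32_MHP.SPA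
import Pool.Agent.Helper60_MHP.SPC
import Pool.Agent.Helper67_MHP.SPB
import Pool.Agent.Helper19_MHP.SPR
import Pool.Agent.Helper23_MHP.THN
import Pool.Agent.Helper64_MHP.STF
import Pool.Agent.Helper95_MHP.COR
import Pool.Agent.Helper81_MHP.EDS
import Pool.Agent.Helper24_MHP.INS
import Pool.Agent.Helper21_MHP.LIN
import Pool.Agent.Helper21_MHP.DEG

/-! # Squad MHP: assembly -/

namespace Pool.Agent.MHP.Fin

open Pool.Agent.MHP

theorem slt : SltStmt := H11.slt H47.asc H8.att

theorem exc : ExcStmt := H60.exc H39.csw H29.cmp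

theorem fam : FamStmt := H7.fam H45.cis H51.spk H66.sps

theorem spr : SprStmt := H19.spr H32.spa (H67.spb H60.spc)

theorem gad : GadStmt :=
  H94.gad slt H35.evi H28.swp H23.nis H14.con H86.crd H29.cmp exc H69.mxc H45.cis fam H66.sps
    H62.spg spr H92.cng

theorem st1 : St1Stmt := H98.st1 H72.mob H6.spl H95.emb H92.cng

theorem tog : TogStmt := H21.tog (H52.tga H27.ext H77.blk H19.cut)

theorem pla : PlaStmt := H36.pla H47.asc H62.spg H45.cis

theorem psp : PspStmt := Pool.Agent.Helper88MHP.psp H66.sps H62.spg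

/-- the main theorem -/
theorem mai : MaiStmt := H25.mai gad (H46.inf H95.emb) st1 tog pla psp H95.emb H45.cis

theorem mso : MsoStmt :=
  H65.mso (H50.cmx H2.cma H75.cmc H51.cmb H59.cmv H69.cms H92.cme) H53.fix

theorem ins : InsStmt := H24.ins H64.stf H62.spg H23.thn H81.eds H95.cor

end Pool.Agent.MHP.Fin
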