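import Pool.Agent.HMT.Base

/-!
# Mates for Harary polynomials (MP_09e7c7_co), squad MHP: definitions used in the statement
-/

set_option autoImplicit false

namespace Pool.Agent.MHP

open Pool.Agent.HMT

/-- A rooted graph: a finite graph `G` with a root `r`. -/
structure PG : Type 1 where
  /-- vertices -/
  V : Type
  [fin : Finite V]
  /-- the graph -/
  G : SimpleGraph V
  /-- the root -/
  r : V

attribute [instance] PG.fin

/-- Gluing: the disjoint union of `X` and `C` with the vertices `x` and `w` identified. The vertices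
are those of `X` and the vertices of `C` other than `w`. -/
def glue {V W : Type} (X : SimpleGraph V) (x : V) (C : SimpleGraph W) (w : W) :
    SimpleGraph (V ⊕ {v : W // v ≠ w}) where
  Adj
    | .inl a, .inl b => X.Adj a b
    | .inl a, .inr v => a = x ∧ C.Adj w v
    | .inr v, .inl a => a = x ∧ C.Adj w v
    | .inr u, .inr v => C.Adj u v
  symm := ⟨by
    rintro (a | u) (b | v) h
    · exact X.adj_symm h
    · exact h
    · exact h
    · exact C.adj_symm h⟩
  loopless := ⟨by
    rintro (a | u) h
    · exact X.irrefl h
    · exact C.irrefl h⟩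

/-- isomorphism of rooted graphs -/
def PIso (A B : PG) : Prop := ∃ φ : A.G ≃g B.G, φ A.r = B.r

/-- The component of the root, a connected rooted graph. -/
def PG.comp (A : PG) : PG where
  V := {v : A.V // A.G.Reachable A.r v}
  G := A.G.induce {v | A.G.Reachable A.r v}
  r := ⟨A.r, SimpleGraph.Reachable.refl _⟩

/-- `Spr 0`: all graphs; `Spr g`, `g ≥ 1`: bipartite, every nonempty set `X` of vertices induces at
most `(1 + 1/g) (|X| - 1)` edges. -/
def Spr (g : ℕ) {V : Type} [Finite V] (G : SimpleGraph V) : Prop :=
  g = 0 ∨ (G.Colorable 2 ∧ ∀ X : Set V, X.Nonempty →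
    g * Nat.card (G.induce X).edgeSet ≤ (g + 1) * (Nat.card X - 1))

open Classical in
/-- `[G ∈ P]` as an integer -/
noncomputable def mu (P : GProp) {V : Type} [Finite V] (G : SimpleGraph V) : ℤ :=
  if P.mem G then 1 else 0

/-- On the rooted graphs `X` of the class `Spr g` whose root has at most one neighbour, the row
`X ↦ [X·A ∈ P]` of the connected rooted graph `A` is a linear combination of the rows of rooted
graphs `M l` whose root component is not isomorphic to `A` and has at most as many edges as `A`
(`A` and the `M l` belong to `Spr g`). -/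
def RowDep (P : GProp) (g : ℕ) : Prop :=
  ∃ (A : PG) (L : Type) (_ : Fintype L) (M : L → PG) (a : ℤ) (b : L → ℤ),
    A.G.Connected ∧ a ≠ 0 ∧ Spr g A.G ∧
    (∀ l, Spr g (M l).G ∧ ¬ PIso (M l).comp A ∧
      Nat.card (M l).comp.G.edgeSet ≤ Nat.card A.G.edgeSet) ∧
    ∀ X : PG, Spr g X.G → (∀ v w, X.G.Adj X.r v → X.G.Adj X.r w → v = w) →
      a * mu P (glue X.G X.r A.G A.r) = ∑ l, b l * mu P (glue X.G X.r (M l).G (M l).r)

end Pool.Agent.MHP
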