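import Pool.Agent.MHP.Base

/-!
# Squad MHP: auxiliary definitions

`tog C F = ∑_{Z ⊆ E(C)} (-1)^|Z| F(V(C), Z)`.  A bicoloured graph is a pair `(S, T)` of graphs on
the same vertex type (solid edges, toggled edges).
-/

set_option autoImplicit false

namespace Pool.Agent.MHP

open Pool.Agent.HMT

/-! ### toggling -/

/-- `tog C F = ∑_{Z ⊆ E(C)} (-1)^|Z| F(V(C), Z)` -/
noncomputable def tog {V : Type} [Finite V] {M : Type} [AddCommGroup M] (C : SimpleGraph V)
    (F : SimpleGraph V → M) : M :=
  ∑ Z ∈ (Set.toFinite C.edgeSet).toFinset.powerset,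
    ((-1 : ℤ) ^ Z.card) • F (SimpleGraph.fromEdgeSet (Z : Set (Sym2 V)))

/-- functionals of bicoloured graphs -/
abbrev Fn (M : Type) := ∀ (V : Type) [Finite V], SimpleGraph V → SimpleGraph V → M

/-- invariance under isomorphisms of bicoloured graphs -/
def Inv {M : Type} (f : Fn M) : Prop :=
  ∀ (V W : Type) [Finite V] [Finite W] (e : V ≃ W) (S T : SimpleGraph V) (S' T' : SimpleGraph W),
    (∀ a b, S'.Adj (e a) (e b) ↔ S.Adj a b) → (∀ a b, T'.Adj (e a) (e b) ↔ T.Adj a b) →
      f V S T = f W S' T'

/-- value of `f` on the bicoloured context `(S, T)` with `C` (all edges toggled) glued at `x` -/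
def ev {M : Type} (f : Fn M) {W : Type} [Finite W] (S T : SimpleGraph W) (x : W) {V : Type}
    [Finite V] (C : SimpleGraph V) (r : V) : M :=
  f (W ⊕ {v : V // v ≠ r}) (glue S x ⊥ r) (glue T x C r)

/-- A relation for `f`: the toggled sum of the connected rooted graph `A` is a combination of the
toggled sums of rooted graphs `M l` whose root component is not isomorphic to `A` and has at most
as many edges. -/
def TRel {M : Type} [AddCommGroup M] (f : Fn M) (A : PG) (L : Type) [Fintype L] (B : L → PG)
    (a : ℤ) (b : L → ℤ) : Prop :=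
  A.G.Connected ∧ a ≠ 0 ∧
    (∀ l, ¬ PIso (B l).comp A ∧ Nat.card (B l).comp.G.edgeSet ≤ Nat.card A.G.edgeSet) ∧
    ∀ (W : Type) [Finite W] (S T : SimpleGraph W) (x : W),
      a • tog A.G (fun Z => ev f S T x Z A.r) =
        ∑ l, b l • tog (B l).G (fun Z => ev f S T x Z (B l).r)

/-! ### the gadget

`J` hubs, `H` a graph on `U` (the pieces), `ρ : J → U` the hubs; `GG` a set of permutations of `J`.
For every `g ∈ GG` a spider: centre `none`, leg `i` with the vertices `some (i, a)`,
`a : Fin (T + 1)`; the end `some (i, T)` of leg `i` is adjacent to the hub `ρ (g i)`. The extra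
vertex `o` is adjacent to all hubs. The core vertex with label `c : Option (GG × KX)`
(`none` = `o`) has `lf c` leaves. -/

section gadget

variable (J : Type) (T B : ℕ)

/-- labels of the core vertices of a spider -/
abbrev KX := Option (J × Fin (T + 1))

/-- index of a label -/
noncomputable def ix [Finite J] (k : KX J T) : ℕ := (Finite.equivFin (KX J T) k : ℕ)

variable {J}

/-- labels of all core vertices; `none` = the vertex `o` -/
abbrev CX (GG : Set (Equiv.Perm J)) := Option (GG × KX J T)

/-- number of leaves of a core vertex -/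
noncomputable def lf [Finite J] (GG : Set (Equiv.Perm J)) : CX T GG → ℕ
  | none => B
  | some (_, k) => B + 1 + ix J T k

/-- vertices of the gadget; `inl ⟨c, none⟩` = core vertex, `inl ⟨c, some t⟩` its leaves,
`inr u` = vertices of the pieces -/
abbrev Ver [Finite J] (GG : Set (Equiv.Perm J)) (U : Type) :=
  (Σ c : CX T GG, Option (Fin (lf T B GG c))) ⊕ U

/-- edges of a spider -/
inductive SpAdj : KX J T → KX J T → Prop
  | c (i : J) : SpAdj none (some (i, 0))
  | s (i : J) (a : Fin T) : SpAdj (some (i, a.castSucc)) (some (i, a.succ))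

/-- edges of the gadget (one direction) -/
inductive Rl [Finite J] (GG : Set (Equiv.Perm J)) {U : Type} (ρ : J → U) (H : SimpleGraph U) :
    Ver T B GG U → Ver T B GG U → Prop
  | leaf (c : CX T GG) (t : Fin (lf T B GG c)) :
      Rl GG ρ H (.inl ⟨c, none⟩) (.inl ⟨c, some t⟩)
  | spi (g : GG) (k k' : KX J T) : SpAdj T k k' →
      Rl GG ρ H (.inl ⟨some (g, k), none⟩) (.inl ⟨some (g, k'), none⟩)
  | leg (g : GG) (i : J) :
      Rl GG ρ H (.inl ⟨some (g, some (i, Fin.last T)), none⟩) (.inr (ρ (g.1 i)))
  | oh (j : J) : Rl GG ρ H (.inl ⟨none, none⟩) (.inr (ρ j))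
  | pc (u u' : U) : H.Adj u u' → Rl GG ρ H (.inr u) (.inr u')

/-- the gadget -/
def Gr [Finite J] (GG : Set (Equiv.Perm J)) {U : Type} (ρ : J → U) (H : SimpleGraph U) :
    SimpleGraph (Ver T B GG U) := SimpleGraph.fromRel (Rl T B GG ρ H)

/-- the root `o` -/
def oo [Finite J] (GG : Set (Equiv.Perm J)) (U : Type) : Ver T B GG U := .inl ⟨none, none⟩

/-- permutations of sign `ε` -/
def SG (J : Type) [Fintype J] [DecidableEq J] (ε : ℤˣ) : Set (Equiv.Perm J) :=
  {g | Equiv.Perm.sign g = ε}

end gadget

end Pool.Agent.MHP
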