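import Pool.Agent.MHP.Base

/-!
# Monadic second order logic of graphs (MP_09e7c7_co, squad MHP): definitions used in the statement
-/

set_option autoImplicit false

namespace Pool.Agent.MHP

open Pool.Agent.HMT

/-- Formulas of counting monadic second order logic of graphs with quantification over vertices,
sets of vertices and sets of edges (CMSO₂). `a`, `b`, `c` are the numbers of free variables for
vertices, sets of vertices and sets of edges. -/
inductive Fml : ℕ → ℕ → ℕ → Type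
  /-- `x_i = x_j` -/
  | eq {a b c : ℕ} (i j : Fin a) : Fml a b c
  /-- `x_i` and `x_j` are adjacent -/
  | adj {a b c : ℕ} (i j : Fin a) : Fml a b c
  /-- `x_i ∈ X_k` -/
  | mem {a b c : ℕ} (i : Fin a) (k : Fin b) : Fml a b c
  /-- `{x_i, x_j} ∈ F_k` -/
  | inc {a b c : ℕ} (i j : Fin a) (k : Fin c) : Fml a b c
  /-- `|X_k| ≡ r` modulo `m` -/
  | card {a b c : ℕ} (k : Fin b) (m r : ℕ) : Fml a b c
  /-- `|F_k| ≡ r` modulo `m` -/
  | ecard {a b c : ℕ} (k : Fin c) (m r : ℕ) : Fml a b c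
  /-- negation -/
  | neg {a b c : ℕ} (φ : Fml a b c) : Fml a b c
  /-- conjunction -/
  | and {a b c : ℕ} (φ ψ : Fml a b c) : Fml a b c
  /-- there is a vertex -/
  | exv {a b c : ℕ} (φ : Fml (a + 1) b c) : Fml a b c
  /-- there is a set of vertices -/
  | exs {a b c : ℕ} (φ : Fml a (b + 1) c) : Fml a b c
  /-- there is a set of edges -/
  | exe {a b c : ℕ} (φ : Fml a b (c + 1)) : Fml a b c

/-- Satisfaction of a formula in the graph `G`. -/
def Sat {V : Type} (G : SimpleGraph V) : {a b c : ℕ} → Fml a b c → (Fin a → V) →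
    (Fin b → Set V) → (Fin c → Set (Sym2 V)) → Prop
  | _, _, _, .eq i j, x, _, _ => x i = x j
  | _, _, _, .adj i j, x, _, _ => G.Adj (x i) (x j)
  | _, _, _, .mem i k, x, X, _ => x i ∈ X k
  | _, _, _, .inc i j k, x, _, F => s(x i, x j) ∈ F k
  | _, _, _, .card k m r, _, X, _ => Nat.card (X k) ≡ r [MOD m]
  | _, _, _, .ecard k m r, _, _, F => Nat.card (F k) ≡ r [MOD m]
  | _, _, _, .neg φ, x, X, F => ¬ Sat G φ x X F
  | _, _, _, .and φ ψ, x, X, F => Sat G φ x X F ∧ Sat G ψ x X F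
  | _, _, _, .exv φ, x, X, F => ∃ v : V, Sat G φ (Fin.cons v x) X F
  | _, _, _, .exs φ, x, X, F => ∃ S : Set V, Sat G φ x (Fin.cons S X) F
  | _, _, _, .exe φ, x, X, F => ∃ T : Set (Sym2 V), T ⊆ G.edgeSet ∧ Sat G φ x X (Fin.cons T F)

/-- The sentence `φ` defines the property `P`: a graph is in `P` iff it satisfies `φ`. -/
def Defines (φ : Fml 0 0 0) (P : GProp) : Prop :=
  ∀ (V : Type) [Finite V] (G : SimpleGraph V),
    P.mem G ↔ Sat G φ Fin.elim0 Fin.elim0 Fin.elim0

end Pool.Agent.MHP
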