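import Pool.Agent.MHP.Logic

/-!
# Monadic second order logic of graphs (MP_09e7c7_co, squad MHP): satisfaction, short form
-/

set_option autoImplicit false

namespace Pool.Agent.MHP

open Pool.Agent.HMT

/-- Values of the free variables: vertices, sets of vertices, sets of edges. -/
structure Asg (V : Type) (a b c : ℕ) where
  /-- the vertices -/
  x : Fin a → V
  /-- the sets of vertices -/
  X : Fin b → Set V
  /-- the sets of edges -/
  F : Fin c → Set (Sym2 V)

/-- Satisfaction of a formula in the graph `G`, by recursion on the formula: the entry `(neg := ...)`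
is the clause for `Fml.neg φ`, where `h` is the satisfaction of `φ`, and so on. -/
noncomputable def Models {V : Type} (G : SimpleGraph V) {a b c : ℕ} (φ : Fml a b c) :
    Asg V a b c → Prop :=
  Fml.rec (motive := fun a b c _ => Asg V a b c → Prop)
    (eq := fun i j s => s.x i = s.x j)
    (adj := fun i j s => G.Adj (s.x i) (s.x j))
    (mem := fun i k s => s.x i ∈ s.X k)
    (inc := fun i j k s => s(s.x i, s.x j) ∈ s.F k)
    (card := fun k m r s => Nat.card (s.X k) ≡ r [MOD m])
    (ecard := fun k m r s => Nat.card (s.F k) ≡ r [MOD m])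
    (neg := fun _ h s => ¬ h s)
    (and := fun _ _ h₁ h₂ s => h₁ s ∧ h₂ s)
    (exv := fun _ h s => ∃ v : V, h ⟨Fin.cons v s.x, s.X, s.F⟩)
    (exs := fun _ h s => ∃ S : Set V, h ⟨s.x, Fin.cons S s.X, s.F⟩)
    (exe := fun _ h s => ∃ T : Set (Sym2 V), T ⊆ G.edgeSet ∧ h ⟨s.x, s.X, Fin.cons T s.F⟩)
    φ

/-- The sentence `φ` defines the property `P`: a graph is in `P` iff it satisfies `φ`. -/
def IsDefined (φ : Fml 0 0 0) (P : GProp) : Prop :=
  ∀ (V : Type) [Finite V] (G : SimpleGraph V),
    P.mem G ↔ Models G φ ⟨Fin.elim0, Fin.elim0, Fin.elim0⟩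

theorem models_iff {V : Type} (G : SimpleGraph V) {a b c : ℕ} (φ : Fml a b c)
    (s : Asg V a b c) : Models G φ s ↔ Sat G φ s.x s.X s.F := by
  induction φ with
  | eq i j => exact Iff.rfl
  | adj i j => exact Iff.rfl
  | mem i k => exact Iff.rfl
  | inc i j k => exact Iff.rfl
  | card k m r => exact Iff.rfl
  | ecard k m r => exact Iff.rfl
  | neg φ ih => exact not_congr (ih s)
  | and φ ψ ih1 ih2 => exact and_congr (ih1 s) (ih2 s)
  | exv φ ih => exact exists_congr fun v => ih _
  | exs φ ih => exact exists_congr fun v => ih _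
  | exe φ ih => exact exists_congr fun v => and_congr Iff.rfl (ih _)

theorem defines_of (φ : Fml 0 0 0) (P : GProp) (h : IsDefined φ P) : Defines φ P :=
  fun V _ G => (h V G).trans (models_iff G φ _)

end Pool.Agent.MHP
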