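import Pool.Agent.MHP.Logic
import Pool.Agent.MHP.StmtsT

/-!
# Squad MHP (MP_09e7c7_co): properties definable in monadic second order logic
-/

set_option autoImplicit false

open scoped Classical

namespace Pool.Agent.MHP

open Pool.Agent.HMT

/-! ## Composition -/

/-- the vertices of the glued graph -/
abbrev VG (K A : PG) : Type := K.V ⊕ {v : A.V // v ≠ A.r}

/-- `K` and `A` glued at the roots -/
abbrev gl (K A : PG) : SimpleGraph (VG K A) := glue K.G K.r A.G A.r

/-- the position of a vertex of the glued graph in `K` -/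
def pl (K A : PG) : VG K A → Option K.V
  | .inl v => some v
  | .inr _ => none

/-- the position of a vertex of the glued graph in `A` (the common vertex is the root) -/
noncomputable def pr (K A : PG) : VG K A → Option A.V
  | .inl v => if v = K.r then some A.r else none
  | .inr v => some v.1

/-- values of the free variables in one of the two parts: vertices (`none`: the vertex is not in
this part), sets of vertices, sets of edges -/
structure Val (a b c : ℕ) (V : Type) where
  /-- vertices -/
  x : Fin a → Option V
  /-- sets of vertices -/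
  X : Fin b → Set V
  /-- sets of edges -/
  F : Fin c → Set (Sym2 V)

/-- the restriction of the values to the left part -/
def vl (K A : PG) {a b c : ℕ} (x : Fin a → VG K A) (X : Fin b → Set (VG K A))
    (F : Fin c → Set (Sym2 (VG K A))) : Val a b c K.V :=
  ⟨fun i => pl K A (x i), fun k => {v | Sum.inl v ∈ X k}, fun k => {e | Sym2.map Sum.inl e ∈ F k}⟩

/-- the restriction of the values to the right part -/
noncomputable def vr (K A : PG) {a b c : ℕ} (x : Fin a → VG K A) (X : Fin b → Set (VG K A))
    (F : Fin c → Set (Sym2 (VG K A))) : Val a b c A.V :=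
  ⟨fun i => pr K A (x i), fun k => {v | emb A.r K.r v ∈ X k},
    fun k => {e | Sym2.map (emb A.r K.r) e ∈ F k}⟩

/-- The composition property of a formula: its truth value in the glued graph is determined by
finitely many types of the two parts with the restrictions of the values of the variables. -/
def Cmp {a b c : ℕ} (φ : Fml a b c) : Prop :=
  ∃ (Q : Type) (_ : Finite Q) (τ : (A : PG) → Val a b c A.V → Q) (R : Q → Q → Prop),
    ∀ (K A : PG) (x : Fin a → VG K A) (X : Fin b → Set (VG K A))
      (F : Fin c → Set (Sym2 (VG K A))), (∀ k, F k ⊆ (gl K A).edgeSet) →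
      (Sat (gl K A) φ x X F ↔ R (τ K (vl K A x X F)) (τ A (vr K A x X F)))

/-- CMA: atomic formulas.
PROOF. `Q = Bool` (or `Prop`), `R p q = p ∨ q`. For `x_i = x_j`: `τ` = the two positions are `some` and
equal (both vertices are in this part and are equal). `τ` for `adj`: both positions are `some v`,
`some w` with `G.Adj v w` (`glue_adj_iff`). For `x_i ∈ X_k`: the position is `some v` with `v ∈ X k`.
For `inc`: the positions are `some v`, `some w` and `s(v, w) ∈ F k`. Direction `→`: every vertex of the
glued graph is in one of the parts; for `inc` the two vertices are ends of an edge (`F k ⊆ edgeSet`),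
so they are in the same part (`glue_adj_iff`). -/
def CmaStmt : Prop :=
  (∀ (a b c : ℕ) (i j : Fin a), Cmp (Fml.eq i j : Fml a b c)) ∧
  (∀ (a b c : ℕ) (i j : Fin a), Cmp (Fml.adj i j : Fml a b c)) ∧
  (∀ (a b c : ℕ) (i : Fin a) (k : Fin b), Cmp (Fml.mem i k : Fml a b c)) ∧
  (∀ (a b c : ℕ) (i j : Fin a) (k : Fin c), Cmp (Fml.inc i j k : Fml a b c))

/-- CMC: counting.
PROOF. `|X| = |X ∩ K| + |X ∩ A| - [root ∈ X]` (the set `X` is the disjoint union of its part in
`K.V` and its part in `{v // v ≠ A.r}`; the preimage under `emb` is the latter plus the root, if it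
belongs to `X`). Case `m = 0`: `≡ r [MOD 0]` means `= r`: take `τ = (min (|X k|) (r + 2), root ∈ X k)` in
`Fin (r + 3) × Prop`. Case `m > 0`: `τ = (|X k| % m, root ∈ X k)` in `Fin m × Prop`. For sets of edges
`F ⊆ edgeSet`: `|F| = |F ∩ E(K)| + |F ∩ E(A)|`: every edge of the glued graph is the image of exactly one
edge of `K` (under `Sum.inl`) or of `A` (under `emb`), not of both (the only common vertex is the root,
and there are no loops); `τ = |F k| % m`, resp. `min (|F k|) (r + 1)`. (`Set` preimages of `F k` under
`Sym2.map` consist of edges.) It may be convenient to treat all cases with one finite type, for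
example `Q = Fin (m + r + 3) × Fin (m + r + 3) × Prop` with both values `% m` and `min`. -/
def CmcStmt : Prop :=
  (∀ (a b c : ℕ) (k : Fin b) (m r : ℕ), Cmp (Fml.card k m r : Fml a b c)) ∧
  (∀ (a b c : ℕ) (k : Fin c) (m r : ℕ), Cmp (Fml.ecard k m r : Fml a b c))

/-- CMB: boolean operations.
PROOF. `neg`: same `τ`, `¬ R`. `and`: `Q₁ × Q₂`, pairs. -/
def CmbStmt : Prop :=
  (∀ (a b c : ℕ) (φ : Fml a b c), Cmp φ → Cmp (Fml.neg φ)) ∧
  (∀ (a b c : ℕ) (φ ψ : Fml a b c), Cmp φ → Cmp ψ → Cmp (Fml.and φ ψ))

/-- CMV: quantification over vertices.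
PROOF. Kinds: `0` = the vertex is the root, `1` = it is in this part, but not the root, `2` = it is not in
this part (`Fin 3`). New type `Q' = Set (Fin 3 × Q)` (finite),
`τ' A v = {(kind o, τ A (v with o in front)) | o : Option A.V}` where `kind none = 2`,
`kind (some A.r) = 0`, `kind (some w) = 1` otherwise;
`R' s t = ∃ (k, q) ∈ s, ∃ (l, q') ∈ t, (k, l) ∈ {(0, 0), (1, 2), (2, 1)} ∧ R q q'`.
(→) For a vertex `v` of the glued graph take `o = pl v`, `o' = pr v`: the kinds fit, and the
restriction of `Fin.cons v x` is `Fin.cons (pl v) (restriction of x)` (ext with `Fin.cases`).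
(←) Given `o`, `o'` with fitting kinds there is a vertex `v` with `pl v = o`, `pr v = o'`. -/
def CmvStmt : Prop :=
  ∀ (a b c : ℕ) (φ : Fml (a + 1) b c), Cmp φ → Cmp (Fml.exv φ)

/-- CMS: quantification over sets of vertices.
PROOF. `Q' = Set (Prop × Q)` (finite), `τ' A v = {(A.r ∈ S, τ A (v with S in front)) | S : Set A.V}`,
`R' s t = ∃ (p, q) ∈ s, ∃ (p', q') ∈ t, (p ↔ p') ∧ R q q'`. (→) Restrict the set. (←) Given `S` and
`S'` with `K.r ∈ S ↔ A.r ∈ S'` put `S'' = Sum.inl '' S ∪ emb '' S'`; its restrictions are `S` and `S'`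
(`inl_eq_emb`, `emb_injective`). -/
def CmsStmt : Prop :=
  ∀ (a b c : ℕ) (φ : Fml a (b + 1) c), Cmp φ → Cmp (Fml.exs φ)

/-- CME: quantification over sets of edges.
PROOF. `Q' = Set Q`, `τ' A v = {τ A (v with T in front) | T ⊆ A.G.edgeSet}`,
`R' s t = ∃ q ∈ s, ∃ q' ∈ t, R q q'`. (→) The restrictions of `T ⊆ (gl K A).edgeSet` are sets of edges of
`K.G` and `A.G` (`glue_adj_inl`, `glue_adj_emb`). (←) Given `T`, `T'` put
`T'' = Sym2.map inl '' T ∪ Sym2.map emb '' T'`, a set of edges of `gl K A`; its restrictions are `T` and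
`T'`: an edge cannot be in both images, since the only common vertex is the root (`inl_eq_emb`) and an
edge has two different ends. (`Sym2.map` of an injective function is injective.) -/
def CmeStmt : Prop :=
  ∀ (a b c : ℕ) (φ : Fml a b (c + 1)), Cmp φ → Cmp (Fml.exe φ)

/-- CMX: every formula has the composition property.
PROOF. Induction on the formula with CMA, CMC, CMB, CMV, CMS, CME. -/
def CmxStmt : Prop := ∀ (a b c : ℕ) (φ : Fml a b c), Cmp φ

/-- FIX: finite index.
PROOF. Let `A l` (`l ≤ n`, `n = card Q`) be the star with `l` leaves, rooted at the centre: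
`V = Option (Fin l)`, `G.Adj v w ↔ v ≠ w ∧ (v = none ∨ w = none)`, `r = none`. It is connected and in
`Spr g`: it is bipartite (colour of the centre different from the colour of the leaves), and a nonempty
set `X` of vertices induces at most `|X| - 1` edges (none if the centre is not in `X`; otherwise every
edge is `s(none, v)` with `v ∈ X`, `v ≠ none`). `(A l).comp` is isomorphic to `A l` (connected), with
`l` edges and `l + 1` vertices, so `¬ PIso (A l).comp (A l')` for `l ≠ l'` (numbers of vertices). The
`n + 1` vectors `v l = (q ↦ [R q (τ (A l))]) : Q → ℤ` in a free `ℤ`-module of rank `n` are linearly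
dependent: `∑ g l • v l = 0` with some `g l ≠ 0` (`Fintype.not_linearIndependent_iff`,
`LinearIndependent.fintype_card_le_finrank`). Let `l₀` be the largest `l` with `g l ≠ 0`. In `RowDep`
take `A = A l₀`, `a = g l₀`, `L = Fin l₀` (the `l < l₀`), `M l = A l`, `b l = - g l`. For every `X`:
`∑_l g l [gl X (A l) ∈ P] = ∑_l g l [R (τ X) (τ (A l))] = 0`. -/
def FixStmt : Prop :=
  ∀ (P : GProp) (g : ℕ), (∃ (Q : Type) (_ : Finite Q) (τ : PG → Q) (R : Q → Q → Prop),
    ∀ X A : PG, P.mem (glue X.G X.r A.G A.r) ↔ R (τ X) (τ A)) → RowDep P g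

/-- MSO: definable properties.
PROOF. CMX for the sentence `φ` (`Val 0 0 0 V` has only one element for every `V`) and FIX: take
`τ A (fun i => i.elim0, ..)`. -/
def MsoStmt : Prop := ∀ (P : GProp) (g : ℕ) (φ : Fml 0 0 0), Defines φ P → RowDep P g

end Pool.Agent.MHP
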