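import Pool.Agent.MHP.StmtsT

/-!
# Squad MHP (MP_09e7c7_co): interchangeable rooted graphs, degree sequences
-/

set_option autoImplicit false

open scoped Classical

namespace Pool.Agent.MHP

open Pool.Agent.HMT

/-- PAI: one pair of interchangeable connected rooted graphs.
PROOF. Exchange `A` and `M` if `M` has more edges. Take `L = Unit`, `a = b = 1` in `RowDep`; a connected
rooted graph is isomorphic to its root component. -/
def PaiStmt : Prop :=
  ∀ (P : GProp) (A M : PG), A.G.Connected → M.G.Connected → ¬ PIso A M →
    (∀ X : PG, P.mem (glue X.G X.r A.G A.r) ↔ P.mem (glue X.G X.r M.G M.r)) → RowDep P 0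

/-- the number of vertices of degree `d` -/
noncomputable def dn {V : Type} (G : SimpleGraph V) (d : ℕ) : ℕ :=
  Nat.card {v : V // Nat.card (G.neighborSet v) = d}

/-- DEG: properties which depend only on the degree sequence.
PROOF. Two trees on `Fin 6` with the root `0` of degree `3`: `A` with the edges 01, 02, 23, 04, 45 and
`M` with the edges 01, 02, 03, 34, 45. The other degrees are 1, 1, 1, 2, 2 in both; they are not
isomorphic as rooted graphs (the root of `A` has one neighbour of degree 1, the root of `M` has two).
For every `X` the glued graphs have the same degree sequence. PAI. -/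
def DegStmt : Prop :=
  ∀ P : GProp, (∀ (V W : Type) [Finite V] [Finite W] (G : SimpleGraph V) (H : SimpleGraph W),
    (∀ d, dn G d = dn H d) → (P.mem G ↔ P.mem H)) → RowDep P 0

end Pool.Agent.MHP
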